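import Pool.Agent.Work.MP_a97ec2_h4.Interface

/-!
# Block CLB
-/

set_option autoImplicit false

open Cardinal Order Set Ordinal

namespace Pool.Agent.Work.MP_a97ec2_h4

theorem p_CLB (hREG : S_REG) : S_CLB := by
  intro W _ _ hW D e A hD he hre hA hAc
  obtain ⟨hreg, hcof, hcard, hIio, hnm, hlub⟩ := hREG W hW
  have hcA : #A = ℵ_ 1 := by
    have h3 := congrArg Ordinal.card hA
    rw [Ordinal.card_type, Ordinal.card_omega] at h3
    exact h3
  have hcofA : Order.cof A = ℵ_ 1 := by
    rw [← Ordinal.cof_type, hA]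
    have h := (Cardinal.isRegular_aleph_one).cof_eq
    rw [← Cardinal.ord_aleph]
    exact h
  have hne : A.Nonempty := by
    rw [Set.nonempty_iff_ne_empty]
    rintro rfl
    rw [Cardinal.mk_emptyCollection] at hcA
    exact absurd hcA.symm (Cardinal.aleph_pos 1).ne'
  have hnomax : ∀ a ∈ A, ∃ a' ∈ A, a < a' := by
    intro a ha
    by_contra hcon
    push Not at hcon
    have h1 : Order.cof A = 1 := by
      have : Nonempty A := ⟨⟨a, ha⟩⟩
      exact Order.cof_eq_one_iff.2 ⟨⟨a, ha⟩, fun b => hcon b b.2⟩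
    rw [hcofA] at h1
    exact absurd h1 (lt_of_lt_of_le Cardinal.one_lt_aleph0 (Cardinal.aleph0_le_aleph 1)).ne'
  obtain ⟨δ, hδ⟩ := hlub (e '' A) (Cardinal.mk_image_le.trans hcA.le) (hne.image e)
  have hδD : δ ∈ D := hD.isLUB_mem (by
    rw [← hre]
    exact Set.image_subset_range e A) (hne.image e) hδ
  have hlt : ∀ a ∈ A, e a < δ := by
    intro a ha
    obtain ⟨a', ha', haa'⟩ := hnomax a ha
    exact (he.strictMono haa').trans_le (hδ.1 ⟨a', ha', rfl⟩)
  refine ⟨δ, hδD, ?_, hlt, ?_⟩
  · let g : A → Iio δ := fun a => ⟨e a, hlt a a.2⟩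
    have hg : StrictMono g := fun a b hab => he.strictMono hab
    have hgc : IsCofinal (range g) := fun z => by
      obtain ⟨_, ⟨a, ha, rfl⟩, hza⟩ := (lt_isLUB_iff hδ).1 z.2
      exact ⟨g ⟨a, ha⟩, ⟨_, rfl⟩, hza.le⟩
    have h := Order.cof_congr_of_strictMono hg hgc
    rw [← h]
    exact hcofA
  · intro y hy
    refine ⟨?_, ?_⟩
    · intro s hs hsne _ z hz
      let t : Set W := {x | x ∈ A ∧ y < x ∧ ∃ h : e x < δ, (⟨e x, h⟩ : Iio δ) ∈ s}
      have hta : t ⊆ A := fun x hx => hx.1
      have htne : t.Nonempty := by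
        obtain ⟨w, hw⟩ := hsne
        obtain ⟨z', hz'A, hyz', hez'⟩ := hs hw
        refine ⟨z', hz'A, hyz', by rw [hez']; exact w.2, ?_⟩
        have : (⟨e z', by rw [hez']; exact w.2⟩ : Iio δ) = w := Subtype.ext hez'
        rw [this]
        exact hw
      have hzl : IsLUB (e '' t) (z : W) := by
        constructor
        · rintro _ ⟨x, ⟨hx, hyx, h, hxs⟩, rfl⟩
          exact hz.1 hxs
        · intro u hu
          by_contra hlt'
          rw [not_le] at hlt'
          have h1 : z ≤ ⟨u, hlt'.trans z.2⟩ := hz.2 (by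
            intro w hw
            obtain ⟨z', hz'A, hyz', hez'⟩ := hs hw
            show (w : W) ≤ u
            rw [← hez']
            refine hu ⟨z', ⟨hz'A, hyz', by rw [hez']; exact w.2, ?_⟩, rfl⟩
            have : (⟨e z', by rw [hez']; exact w.2⟩ : Iio δ) = w := Subtype.ext hez'
            rw [this]
            exact hw)
          exact absurd h1 (not_le.2 hlt')
      obtain ⟨_, ⟨a, ha, rfl⟩, hza⟩ := (lt_isLUB_iff hδ).1 z.2
      obtain ⟨x, hx⟩ := hlub t ((Cardinal.mk_le_mk_of_subset hta).trans hcA.le) htne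
      have hxa : x ≤ a := hx.2 (fun w hw => by
        have h1 : e w ≤ z := hzl.1 ⟨w, hw, rfl⟩
        exact (he.strictMono.lt_iff_lt.1 (h1.trans_lt hza)).le)
      have hxA : x ∈ A := hAc t hta htne x a hx ha hxa
      have hyx : y < x := by
        obtain ⟨w, hw⟩ := htne
        exact hw.2.1.trans_le (hx.1 hw)
      have hex : e x = z := (he.map_isLUB hx htne).unique hzl
      exact ⟨x, hxA, hyx, hex⟩
    · intro z
      obtain ⟨_, ⟨a, ha, rfl⟩, hza⟩ := (lt_isLUB_iff hδ).1 z.2
      obtain ⟨b, hb, hyb⟩ := hnomax y hy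
      have hm : max a b ∈ A := by
        rcases le_total a b with h | h
        · rw [max_eq_right h]
          exact hb
        · rw [max_eq_left h]
          exact ha
      refine ⟨⟨e (max a b), hlt _ hm⟩, ⟨max a b, hm, hyb.trans_le (le_max_right _ _), rfl⟩, ?_⟩
      exact hza.le.trans (he.strictMono.monotone (le_max_left _ _))

end Pool.Agent.Work.MP_a97ec2_h4
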