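import Pool.Agent.Work.MP_a97ec2_h4.Interface

/-!
# Block COL: the colouring
-/

set_option autoImplicit false

open Cardinal Order Set Ordinal

namespace Pool.Agent.Work.MP_a97ec2_h4

theorem p_COL (hREG : S_REG) : S_COL := by
  intro W _ _ hW S hdis
  classical
  have hcard : #W = ℵ_ 2 := (hREG W hW).2.2.1
  have hinf : ℵ₀ ≤ #W := by
    rw [hcard]
    exact Cardinal.aleph0_le_aleph 2
  have hmul : #(W × W) = #W := by
    rw [← Cardinal.mul_def]
    exact Cardinal.mul_eq_self hinf
  obtain ⟨g⟩ : Nonempty (W × W ≃ W) := Cardinal.eq.1 hmul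
  let r : W → W → W := fun b y =>
    if h : ∃ x, x < y ∧ b ∈ S x y ∧ y < b then h.choose else y
  have hr : ∀ b y u, r b y = u → u = y ∨ b ∈ S u y := by
    intro b y u h
    by_cases hex : ∃ x, x < y ∧ b ∈ S x y ∧ y < b
    · right
      have h1 : r b y = hex.choose := dif_pos hex
      rw [← h, h1]
      exact hex.choose_spec.2.1
    · left
      have h1 : r b y = y := dif_neg hex
      rw [← h, h1]
  refine ⟨fun x b => g (r b x, b), ?_, ?_, ?_⟩
  · intro x b x' b' _ _ h
    have h1 := g.injective h
    exact congrArg Prod.snd h1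
  · intro c
    rcases Set.eq_empty_or_nonempty {p : W × W | p.1 < p.2 ∧ g (r p.2 p.1, p.2) = c} with he | hne
    · rw [he]
      simp
    · obtain ⟨⟨u0, b⟩, hlt, hc⟩ := hne
      have hc' : g (r b u0, b) = c := hc
      set u := r b u0 with hu
      have hT : ({x : W | b ∈ S u x}).Subsingleton := by
        intro x hx y hy
        exact (hdis u x u y b hx hy).2
      have hsub : {p : W × W | p.1 < p.2 ∧ g (r p.2 p.1, p.2) = c} ⊆
          insert (u, b) ((fun x : W => (x, b)) '' {x : W | b ∈ S u x}) := by
        rintro ⟨x, b'⟩ ⟨_, hx⟩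
        have hx' : g (r b' x, b') = c := hx
        have h1 : (r b' x, b') = (u, b) := g.injective (hx'.trans hc'.symm)
        have h2 : b' = b := congrArg Prod.snd h1
        have h3 : r b' x = u := congrArg Prod.fst h1
        subst h2
        rcases hr b' x u h3 with h4 | h4
        · left
          rw [h4]
        · right
          exact ⟨x, h4, rfl⟩
      calc ({p : W × W | p.1 < p.2 ∧ g (r p.2 p.1, p.2) = c}).encard
          ≤ (insert (u, b) ((fun x : W => (x, b)) '' {x : W | b ∈ S u x})).encard :=
            Set.encard_le_encard hsub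
        _ ≤ ((fun x : W => (x, b)) '' {x : W | b ∈ S u x}).encard + 1 :=
            Set.encard_insert_le _ _
        _ ≤ 1 + 1 := by
            gcongr
            rw [Set.encard_le_one_iff_subsingleton]
            exact hT.image _
        _ = 2 := by norm_num
  · intro x y b hxy hyb hb
    have h1 : r b y = x := by
      have hex : ∃ x, x < y ∧ b ∈ S x y ∧ y < b := ⟨x, hxy, hb, hyb⟩
      have h2 : r b y = hex.choose := dif_pos hex
      rw [h2]
      exact (hdis _ _ _ _ _ hex.choose_spec.2.1 hb).1
    have h2 : r b x = x := by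
      have hex : ¬ ∃ x0, x0 < x ∧ b ∈ S x0 x ∧ x < b := by
        rintro ⟨x0, hx0, hb0, _⟩
        exact hxy.ne (hdis _ _ _ _ _ hb0 hb).2
      exact dif_neg hex
    show g (r b x, b) = g (r b y, b)
    rw [h1, h2]

end Pool.Agent.Work.MP_a97ec2_h4
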