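import Pool.Agent.Work.MP_a97ec2_h4.Interface

/-! Block DGN of MP_a97ec2_lc: diagonal intersection (helper12). -/

set_option autoImplicit false

open Cardinal Order Set Ordinal

namespace Pool.Agent.Work.MP_a97ec2_h4

theorem p_DGN (hREG : S_REG) : S_DGN := by
  intro W _ _ hW D hD
  obtain ⟨-, hcof, -, hsm, hnm, hlub⟩ := hREG W hW
  have h01 : (ℵ₀ : Cardinal.{0}) < ℵ_ 2 := by
    rw [← aleph_zero]
    exact aleph_lt_aleph.2 (by norm_num)
  have h12 : (ℵ_ 1 : Cardinal.{0}) < ℵ_ 2 := aleph_lt_aleph.2 (by norm_num)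
  have hc0 : Order.cof W ≠ ℵ₀ := by
    rw [hcof]
    exact h01.ne'
  refine ⟨?_, ?_⟩
  · intro t ht hne _ d hd x hx y hy
    obtain ⟨z, hz, hxz⟩ := (lt_isLUB_iff hd).1 hx
    obtain ⟨z', hz', hyz⟩ := (lt_isLUB_iff hd).1 hy
    have hm : max z z' ∈ t := by
      rcases max_choice z z' with h | h <;> rw [h] <;> assumption
    have hsub : t ∩ Ici (max z z') ⊆ D x y := by
      rintro e ⟨het, hem⟩
      have hem' : max z z' ≤ e := hem
      exact ht het x (hxz.trans_le ((le_max_left z z').trans hem'))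
        y (hyz.trans_le ((le_max_right z z').trans hem'))
    have hL : IsLUB (t ∩ Ici (max z z')) d := by
      refine ⟨fun e he => hd.1 he.1, fun b hb => hd.2 fun e he => ?_⟩
      have hmem : max e (max z z') ∈ t ∩ Ici (max z z') := by
        refine ⟨?_, le_max_right _ _⟩
        rcases max_choice e (max z z') with h | h <;> rw [h] <;> assumption
      exact (le_max_left _ _).trans (hb hmem)
    exact (hD x y).isLUB_mem hsub ⟨_, hm, le_refl _⟩ hL
  · intro a
    have hC : ∀ b : W, IsClub (⋂ p : Iio b × Iio b, D p.1 p.2) := by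
      intro b
      refine IsClub.iInter hc0 ?_ fun p => hD _ _
      rw [Cardinal.lift_id, Cardinal.lift_id, hcof, Cardinal.mk_prod, Cardinal.lift_id]
      refine lt_of_le_of_lt (mul_le_mul' (hsm b) (hsm b)) ?_
      rw [Cardinal.mul_eq_self (aleph0_le_aleph 1)]
      exact h12
    have hex : ∀ b : W, ∃ c : W, b < c ∧ c ∈ ⋂ p : Iio b × Iio b, D p.1 p.2 := by
      intro b
      obtain ⟨b', hb'⟩ := hnm.exists_gt b
      obtain ⟨c, hc, hbc⟩ := (hC b).isCofinal b'
      exact ⟨c, lt_of_lt_of_le hb' hbc, hc⟩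
    choose h hgt hmem using hex
    let g : ℕ → W := fun n => h^[n] a
    have hg : ∀ n, g (n + 1) = h (g n) := fun n => Function.iterate_succ_apply' h n a
    have hmono : StrictMono g := strictMono_nat_of_lt_succ fun n => by
      rw [hg]
      exact hgt _
    have hcard : #(range g) ≤ ℵ_ 1 := by
      have h1 : #(range g) ≤ ℵ₀ := by
        rw [le_aleph0_iff_set_countable]
        exact countable_range g
      exact h1.trans (aleph0_le_aleph 1)
    obtain ⟨d, hd⟩ := hlub (range g) hcard (range_nonempty g)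
    refine ⟨d, ?_, hd.1 ⟨0, rfl⟩⟩
    intro x hx y hy
    obtain ⟨_, ⟨n, rfl⟩, hxn⟩ := (lt_isLUB_iff hd).1 hx
    obtain ⟨_, ⟨m, rfl⟩, hym⟩ := (lt_isLUB_iff hd).1 hy
    have hsub : range (fun k => g (max n m + k + 1)) ⊆ D x y := by
      rintro _ ⟨k, rfl⟩
      have hx' : x < g (max n m + k) := hxn.trans_le
        (hmono.monotone ((le_max_left n m).trans (Nat.le_add_right _ _)))
      have hy' : y < g (max n m + k) := hym.trans_le
        (hmono.monotone ((le_max_right n m).trans (Nat.le_add_right _ _)))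
      have := hmem (g (max n m + k))
      rw [mem_iInter] at this
      have h' := this (⟨x, hx'⟩, ⟨y, hy'⟩)
      show g (max n m + k + 1) ∈ D x y
      rw [hg]
      exact h'
    have hL : IsLUB (range (fun k => g (max n m + k + 1))) d := by
      refine ⟨?_, fun b hb => hd.2 ?_⟩
      · rintro _ ⟨k, rfl⟩
        exact hd.1 ⟨_, rfl⟩
      · rintro _ ⟨k, rfl⟩
        exact (hmono.monotone (by omega : k ≤ max n m + k + 1)).trans (hb ⟨k, rfl⟩)
    exact (hD x y).isLUB_mem hsub (range_nonempty _) hL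

end Pool.Agent.Work.MP_a97ec2_h4
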