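import Pool.Agent.Work.MP_a97ec2_h4.Interface

/-!
# Closed rainbow sets and non-reflection: assembly
-/

set_option autoImplicit false

open Cardinal Order Set Ordinal

namespace Pool.Agent.Work.MP_a97ec2_h4

theorem p_MAIN (hREG : S_REG) (hULM : S_ULM) (hDGN : S_DGN) (hCOL : S_COL) (hCLB : S_CLB) :
    S_MAIN := by
  intro W _ _ hW hP T hT
  by_contra hno
  obtain ⟨S, hS, hdis⟩ := hULM W hW T hT
  have hD : ∀ x y, ∃ D : Set W, IsClub D ∧
      ∀ δ ∈ D, Order.cof (Iio δ) = ℵ_ 1 → Reflects (S x y) δ := by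
    intro x y
    have h : ¬ IsStationary {δ : W | Order.cof (Iio δ) = ℵ_ 1 ∧ ¬ Reflects (S x y) δ} :=
      fun h => hno ⟨S x y, (hS x y).1, (hS x y).2, h⟩
    rw [not_isStationary_iff] at h
    obtain ⟨t, ht, hd⟩ := h
    refine ⟨t, ht, fun δ hδ hc => ?_⟩
    by_contra hr
    exact Set.disjoint_left.1 hd ⟨hc, hr⟩ hδ
  choose D hDc hDr using hD
  have hDG := hDGN W hW D hDc
  have hreg := (hREG W hW).1
  obtain ⟨e, he, hre⟩ : ∃ e : W → W, IsNormal e ∧
      range e = {δ : W | ∀ x < δ, ∀ y < δ, δ ∈ D x y} :=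
    ⟨Subtype.val ∘ enum _ hDG.isCofinal, IsClub.isNormal_enum hDG, (enum_eq_iff.1 rfl).2⟩
  obtain ⟨f, hfn, hf2, hfS⟩ := hCOL W hW (fun x y => {z | e z ∈ S (e x) (e y)}) (by
    intro x y x' y' z h h'
    obtain ⟨h1, h2⟩ := hdis _ _ _ _ _ h h'
    exact ⟨he.strictMono.injective h1, he.strictMono.injective h2⟩)
  obtain ⟨A, hA1, hA2, hA3⟩ := hP f hfn hf2
  obtain ⟨δ, hδD, hδc, hδA, hδcl⟩ := hCLB W hW _ e A hDG he hre hA1 hA2
  obtain ⟨x, hx, y, hy, hxy⟩ : ∃ x ∈ A, ∃ y ∈ A, x < y := by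
    by_contra hcon
    push Not at hcon
    have hsub : A.Subsingleton := fun x hx y hy => le_antisymm (hcon y hy x hx) (hcon x hx y hy)
    have h1 : #A ≤ 1 := by
      rw [Cardinal.mk_le_one_iff_set_subsingleton]
      exact hsub
    have h2 : #A = ℵ_ 1 := by
      have h3 := congrArg Ordinal.card hA1
      rw [Ordinal.card_type, Ordinal.card_omega] at h3
      exact h3
    rw [h2] at h1
    exact absurd h1 (not_le.2 (lt_of_lt_of_le Cardinal.one_lt_aleph0 (Cardinal.aleph0_le_aleph 1)))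
  have hR : Reflects (S (e x) (e y)) δ := hDr _ _ δ (hδD _ (hδA x hx) _ (hδA y hy)) hδc
  obtain ⟨z, hz1, z', hz', hyz', hez⟩ := hR (hδcl y hy)
  have h := hfS x y z' hxy hyz' (show e z' ∈ S (e x) (e y) from by
    rw [hez]
    exact hz1)
  exact hxy.ne (hA3 x hx z' hz' y hy z' hz' (hxy.trans hyz') hyz' h).1

end Pool.Agent.Work.MP_a97ec2_h4
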