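import Pool.Agent.Work.MP_a97ec2_h4.Interface

/-!
# Block ULM (helper9): Ulam matrix
-/

set_option autoImplicit false

open Cardinal Order Set Ordinal

namespace Pool.Agent.Work.MP_a97ec2_h4

namespace ULM

theorem aleph_one_lt_two : (ℵ_ 1 : Cardinal.{0}) < ℵ_ 2 := by
  rw [Cardinal.aleph_lt_aleph]
  exact_mod_cast Nat.one_lt_two

theorem aleph_two_eq : (ℵ_ 2 : Cardinal.{0}) = Order.succ (ℵ_ 1) := by
  rw [← Cardinal.aleph_succ]
  congr 1
  exact Ordinal.succ_one.symm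

theorem isClub_Ioi {W : Type} [LinearOrder W] [NoMaxOrder W] (a : W) : IsClub (Ioi a) := by
  refine ⟨?_, ?_⟩
  · intro s hs hs0 _ x hx
    obtain ⟨y, hy⟩ := hs0
    exact lt_of_lt_of_le (hs hy) (hx.1 hy)
  · intro b
    obtain ⟨c, hc⟩ := exists_gt (max a b)
    exact ⟨c, lt_of_le_of_lt (le_max_left a b) hc, (le_max_right a b).trans hc.le⟩

end ULM

theorem p_ULM (hREG : S_REG) : S_ULM := by
  classical
  intro W _ _ hW T hT
  obtain ⟨_, hcof, hcard, hIio, hnomax, _⟩ := hREG W hW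
  have hlt : (ℵ₀ : Cardinal.{0}) < ℵ_ 2 := aleph0_lt_aleph_one.trans ULM.aleph_one_lt_two
  have hcof0 : Order.cof W ≠ ℵ₀ := by
    rw [hcof]
    exact hlt.ne'
  have hI : #(ℵ_ 1 : Cardinal.{0}).out = ℵ_ 1 := mk_out _
  have hinj : ∀ b : W, ∃ g : Iio b → (ℵ_ 1 : Cardinal.{0}).out, Function.Injective g := by
    intro b
    have h : #(Iio b) ≤ #(ℵ_ 1 : Cardinal.{0}).out := by
      rw [hI]
      exact hIio b
    rw [Cardinal.le_def] at h
    obtain ⟨g⟩ := h
    exact ⟨g, g.injective⟩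
  choose g hg using hinj
  let U : (ℵ_ 1 : Cardinal.{0}).out → W → Set W := fun i a => {b | b ∈ T ∧ ∃ h : a < b, g b ⟨a, h⟩ = i}
  have hU : ∀ a : W, ∃ i, IsStationary (U i a) := by
    intro a
    have h1 : IsStationary (Iic a ∪ ⋃ i, U i a) := by
      refine hT.mono ?_
      intro b hb
      by_cases h : a < b
      · right
        exact mem_iUnion.2 ⟨g b ⟨a, h⟩, hb, h, rfl⟩
      · left
        exact not_lt.1 h
    rw [isStationary_union_iff hcof0] at h1
    rcases h1 with h1 | h1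
    · exfalso
      obtain ⟨x, hx1, hx2⟩ := h1 (ULM.isClub_Ioi a)
      exact absurd hx2 (not_lt.2 hx1)
    · rw [isStationary_iUnion_iff hcof0 (by
        rw [Cardinal.lift_id, Cardinal.lift_id, hI, hcof]
        exact ULM.aleph_one_lt_two)] at h1
      exact h1
  choose i hi using hU
  obtain ⟨i0, hi0⟩ := infinite_pigeonhole_card_lt i (by
    rw [hI, hcard]
    exact ULM.aleph_one_lt_two) (by
    rw [hcard]
    exact hlt.le)
  have h2 : #(W × W) ≤ #(i ⁻¹' {i0}) := by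
    have h3 : #(W × W) = ℵ_ 2 := by
      rw [Cardinal.mk_prod, Cardinal.lift_id, hcard]
      exact Cardinal.mul_eq_self hlt.le
    rw [h3, ULM.aleph_two_eq]
    rw [hI] at hi0
    exact Order.succ_le_of_lt hi0
  rw [Cardinal.le_def] at h2
  obtain ⟨φ⟩ := h2
  refine ⟨fun x y => U i0 (φ (x, y)), ?_, ?_⟩
  · intro x y
    refine ⟨fun b hb => hb.1, ?_⟩
    have h3 := hi (φ (x, y) : W)
    have h4 : i (φ (x, y) : W) = i0 := (φ (x, y)).2
    rw [h4] at h3
    exact h3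
  · rintro x y x' y' z ⟨_, h, h5⟩ ⟨_, h', h6⟩
    have h7 := hg z (h5.trans h6.symm)
    have h8 : (φ (x, y) : W) = (φ (x', y') : W) := Subtype.mk_eq_mk.1 h7
    have h9 := φ.injective (Subtype.ext h8)
    exact ⟨congrArg Prod.fst h9, congrArg Prod.snd h9⟩

end Pool.Agent.Work.MP_a97ec2_h4
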