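import Pool.Agent.Work.MP_a97ec2_h4.Interface

/-!
# Closed rainbow sets and non-reflection: WK, the weaker properties
-/

set_option autoImplicit false

open Cardinal Order Set Ordinal

namespace Pool.Agent.Work.MP_a97ec2_h4

theorem p_WK : S_WK := by
  intro W _ _
  constructor
  · intro h f hn hf
    exact h f hn (fun c => Set.Finite.countable (Set.finite_of_encard_le_coe (k := 2) (hf c)))
  · intro h f hn hf
    refine h f hn ⟨2, ?_, ?_⟩
    · exact (Ordinal.nat_lt_omega0 2).trans Ordinal.omega0_lt_omega_one
    · intro a b hab
      have hcard : {x : W | x < b ∧ f x b = f a b}.encard ≤ 2 := by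
        refine le_trans ?_ (hf (f a b))
        refine Set.encard_le_encard_of_injOn (f := fun x => (x, b)) ?_ ?_
        · intro x hx
          exact ⟨hx.1, hx.2⟩
        · intro x _ y _ hxy
          exact (Prod.mk.inj hxy).1
      have hfin : {x : W | x < b ∧ f x b = f a b}.Finite :=
        Set.finite_of_encard_le_coe (k := 2) hcard
      letI := hfin.fintype
      rw [Ordinal.type_fintype]
      have h2 : Fintype.card {x : W | x < b ∧ f x b = f a b} ≤ 2 := by
        rw [Set.encard_eq_coe_toFinset_card, Set.toFinset_card] at hcard
        exact_mod_cast hcard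
      exact_mod_cast h2

end Pool.Agent.Work.MP_a97ec2_h4
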