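import Pool.Agent.Work.MP_a97ec2_h4.Interface

set_option autoImplicit false

open Cardinal Order Set Ordinal

namespace Pool.Agent.Work.MP_a97ec2_h4

theorem p_REG : S_REG := by
  intro W _ _ hW

  have e2' : (2 : Ordinal.{0}) = 1 + 1 := by norm_num
  have hreg : Cardinal.IsRegular (ℵ_ (2 : Ordinal.{0})) := by
    rw [e2']; exact isRegular_aleph_add_one 1
  have hsucc : ℵ_ (2 : Ordinal.{0}) = succ (ℵ_ (1 : Ordinal.{0})) := by
    rw [e2']; exact (succ_aleph 1).symm
  have hcof : Order.cof W = ℵ_ 2 := by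
    rw [← cof_type, hW]
    exact hreg.cof_omega_eq
  have hcard : #W = ℵ_ 2 := by
    rw [← card_type (· < · : W → W → Prop), hW, ← ord_aleph, card_ord]
  have hreg' : IsRegularCardinalOrder W := ⟨by rw [hcof, hW, ord_aleph]⟩
  have hne : Nonempty W := by
    rw [← mk_ne_zero_iff, hcard]
    exact (hreg.pos).ne'
  have hnotop : NoTopOrder W := by
    rw [← Order.one_lt_cof_iff, hcof]
    exact one_lt_aleph0.trans_le hreg.aleph0_le
  refine ⟨hreg', hcof, hcard, ?_, ?_, ?_⟩
  · intro b
    have h1 : typein (· < · : W → W → Prop) b < (ℵ_ (2 : Ordinal.{0})).ord := by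
      rw [ord_aleph, ← hW]
      exact typein_lt_type _ b
    have h2 : #(Iio b) < ℵ_ 2 := by
      have h3 := lt_ord.1 h1
      exact h3
    rw [hsucc] at h2
    exact lt_succ_iff.1 h2
  · constructor
    intro a
    obtain ⟨b, hb⟩ := hnotop.exists_not_le a
    exact ⟨b, not_le.1 hb⟩
  · intro A hA hAne
    have hncof : ¬ IsCofinal A := by
      intro hc
      have h1 := cof_le hc
      rw [hcof, hsucc] at h1
      exact absurd (h1.trans hA) (not_le.2 (lt_succ _))
    have hbdd : BddAbove A := by
      unfold IsCofinal at hncof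
      push Not at hncof
      obtain ⟨x, hx⟩ := hncof
      exact ⟨x, fun a ha => (hx a ha).le⟩
    have hwf : WellFounded (· < · : W → W → Prop) := wellFounded_lt
    refine ⟨hwf.min (upperBounds A) hbdd, hwf.min_mem _ _, ?_⟩
    intro x hx
    exact not_lt.1 (hwf.not_lt_min (upperBounds A) hx)

end Pool.Agent.Work.MP_a97ec2_h4
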