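import Mathlib

/-!
# Closed rainbow sets and non-reflection: definitions and blocks (MP_a97ec2_lc)

`W` is a well-order of type `ω_2`. `IsClub`, `IsStationary`, `Order.cof` are Mathlib's
(`Mathlib.SetTheory.Cardinal.Cofinality.Club`). For `δ : W` the initial segment `Iio δ` is again a
linear order, so `IsStationary` of a subset of `Iio δ` means stationary in `δ`.
-/

set_option autoImplicit false

open Cardinal Order Set Ordinal

namespace Pool.Agent.Work.MP_a97ec2_h4

section
variable {W : Type} [LinearOrder W]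

/-- `f` is a normal colouring of the pairs `x < b` -/
def Normal (f : W → W → W) : Prop :=
  ∀ x b x' b' : W, x < b → x' < b' → f x b = f x' b' → b = b'

/-- every colour class has at most two elements -/
def TwoBounded (f : W → W → W) : Prop :=
  ∀ c : W, {p : W × W | p.1 < p.2 ∧ f p.1 p.2 = c}.encard ≤ 2

/-- every colour class is countable -/
def OmegaBounded (f : W → W → W) : Prop :=
  ∀ c : W, {p : W × W | p.1 < p.2 ∧ f p.1 p.2 = c}.Countable

/-- the order types of the sets `{x < b | f x b = f a b}` have a countable bound -/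
def TypeBounded [WellFoundedLT W] (f : W → W → W) : Prop :=
  ∃ γ : Ordinal.{0}, γ < ω_ 1 ∧ ∀ a b : W, a < b → typeLT {x : W | x < b ∧ f x b = f a b} ≤ γ

/-- `A` is rainbow -/
def Rainbow (f : W → W → W) (A : Set W) : Prop :=
  ∀ x ∈ A, ∀ b ∈ A, ∀ x' ∈ A, ∀ b' ∈ A, x < b → x' < b' → f x b = f x' b' → x = x' ∧ b = b'

/-- `A` contains the suprema of its non-empty subsets which are bounded by an element of `A` -/
def ClosedSet (A : Set W) : Prop :=
  ∀ s ⊆ A, s.Nonempty → ∀ x a : W, IsLUB s x → a ∈ A → x ≤ a → x ∈ A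

/-- every normal colouring with the property `P` has a closed rainbow set of order type `ω_1` -/
def Poly (W : Type) [LinearOrder W] [WellFoundedLT W] (P : (W → W → W) → Prop) : Prop :=
  ∀ f : W → W → W, Normal f → P f → ∃ A : Set W, typeLT A = ω_ 1 ∧ ClosedSet A ∧ Rainbow f A

/-- `T` is stationary in `δ` -/
def Reflects (T : Set W) (δ : W) : Prop := IsStationary {x : Iio δ | (x : W) ∈ T}

end

/-! ## Blocks -/

/-- REG: basic facts. -/
def S_REG : Prop := ∀ (W : Type) [LinearOrder W] [WellFoundedLT W], typeLT W = ω_ 2 →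
  IsRegularCardinalOrder W ∧ Order.cof W = ℵ_ 2 ∧ #W = ℵ_ 2 ∧ (∀ b : W, #(Iio b) ≤ ℵ_ 1) ∧
    NoMaxOrder W ∧ ∀ A : Set W, #A ≤ ℵ_ 1 → A.Nonempty → ∃ δ, IsLUB A δ

/-- ULM: Ulam matrix (uses REG). `T = ⋃` of `{β ∈ T | α < β, g β α = i}`, `i < ω_1`, and an initial piece. -/
def S_ULM : Prop := ∀ (W : Type) [LinearOrder W] [WellFoundedLT W], typeLT W = ω_ 2 →
  ∀ T : Set W, IsStationary T → ∃ S : W → W → Set W, (∀ x y, S x y ⊆ T ∧ IsStationary (S x y)) ∧
    ∀ x y x' y' z, z ∈ S x y → z ∈ S x' y' → x = x' ∧ y = y'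

/-- DGN: diagonal intersection (uses REG). -/
def S_DGN : Prop := ∀ (W : Type) [LinearOrder W] [WellFoundedLT W], typeLT W = ω_ 2 →
  ∀ D : W → W → Set W, (∀ x y, IsClub (D x y)) →
    IsClub {δ : W | ∀ x < δ, ∀ y < δ, δ ∈ D x y}

/-- COL: the colouring (uses REG for an injection `W × W → W`). -/
def S_COL : Prop := ∀ (W : Type) [LinearOrder W] [WellFoundedLT W], typeLT W = ω_ 2 →
  ∀ S : W → W → Set W, (∀ x y x' y' z, z ∈ S x y → z ∈ S x' y' → x = x' ∧ y = y') →
    ∃ f : W → W → W, Normal f ∧ TwoBounded f ∧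
      ∀ x y b, x < y → y < b → b ∈ S x y → f x b = f y b

/-- CLB: the image of a closed set of type `ω_1` under the enumeration of a club (uses REG). -/
def S_CLB : Prop := ∀ (W : Type) [LinearOrder W] [WellFoundedLT W], typeLT W = ω_ 2 →
  ∀ (D : Set W) (e : W → W) (A : Set W), IsClub D → IsNormal e → range e = D →
    typeLT A = ω_ 1 → ClosedSet A →
    ∃ δ ∈ D, Order.cof (Iio δ) = ℵ_ 1 ∧ (∀ a ∈ A, e a < δ) ∧
      ∀ y ∈ A, IsClub {z : Iio δ | ∃ z' ∈ A, y < z' ∧ e z' = z}

/-- WK: the weaker properties. -/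
def S_WK : Prop := ∀ (W : Type) [LinearOrder W] [WellFoundedLT W],
  (Poly W OmegaBounded → Poly W TwoBounded) ∧ (Poly W TypeBounded → Poly W TwoBounded)

/-- The theorem. -/
def S_MAIN : Prop := ∀ (W : Type) [LinearOrder W] [WellFoundedLT W], typeLT W = ω_ 2 →
  Poly W TwoBounded → ∀ T : Set W, IsStationary T →
    ∃ T' ⊆ T, IsStationary T' ∧
      IsStationary {δ : W | Order.cof (Iio δ) = ℵ_ 1 ∧ ¬ Reflects T' δ}

end Pool.Agent.Work.MP_a97ec2_h4
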